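import Pool.Agent.N249.Tw.Weak2

set_option autoImplicit false

/-!
Arbitrary families of lines: mixed norm estimates for the maximal function, with a loss.
-/

open MeasureTheory Set ENNReal NNReal Metric Filter

namespace Pool.Agent.N249.Tw

open Pool.Agent.H803R2.Kak Pool.Agent.H803R2.KakFTO
open Pool.Agent.W46.HM (kmax)
open Pool.Agent.Y244.WR (TubeQ)
open Pool.Agent.TH426.Kt (LMb VanOff)

variable {d : ℕ}

theorem arb_lmb (hd : 1 ≤ d) {c l : ℝ} (hl : 1 ≤ l) (hlc : l ≤ c)
    (hT : ∀ c' : ℝ, c < c' → TubeQ d (1 + c' / d)) {ε : ℝ} (hε : 0 < ε) :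
    ∃ C : ℝ, 0 < C ∧ ∀ (δ : ℝ) (T : Set ℝ) (B : Set (Vec d)) (b : Vec d → Vec d), 0 < δ → δ < 1 →
      B ⊆ closedBall 0 1 →
      LMb δ T l (1 + d / c) (ENNReal.ofReal (C * δ ^ (-(l * ((d : ℝ) + 1 - (1 + d / c)) + ε)))) B b := by
  have hd0 : (0 : ℝ) < d := by exact_mod_cast hd
  have hl0 : 0 < l := by linarith
  have hc0 : 0 < c := by linarith
  have hc1 : 1 ≤ c := hl.trans hlc
  -- the choice of the exponents
  set η : ℝ := ε / (l * d) with hη
  have hη0 : 0 < η := by positivity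
  set c' : ℝ := c + η with hc'
  have hcc' : c < c' := by linarith
  have hc'0 : 0 < c' := by linarith
  set p : ℝ := 1 + d / c with hp
  set p' : ℝ := 1 + d / c' with hp'
  have hp0 : 0 < p := by positivity
  have hp'0 : 0 < p' := by positivity
  have hpp' : p' < p := by
    rw [hp, hp']
    have : (d : ℝ) / c' < d / c := div_lt_div_of_pos_left hd0 hc0 hcc'
    linarith
  set r : ℝ := p / p' with hr
  have hr1 : 1 < r := by rw [hr, lt_div_iff₀ hp'0]; linarith
  have hrp : r * p' = p := by rw [hr]; field_simp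
  set Q : ℝ := (d : ℝ) + c' with hQ
  set s : ℝ := l * p' with hs
  have hs0 : 0 < s := by positivity
  have hQc : Q = c' * p' := by rw [hQ, hp']; field_simp; ring
  have hsQ : s < Q := by
    rw [hQc, hs]
    exact mul_lt_mul_of_pos_right (by linarith) hp'0
  have hsQ' : s / Q = l / c' := by
    rw [hQc, hs]
    field_simp
  have hdiff : l * (p - p') ≤ ε := by
    have e1 : p - p' = d * η / (c * c') := by
      rw [hp, hp', hc']
      field_simp
      ring
    have e2 : d * η / (c * c') ≤ d * η := by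
      apply div_le_self (by positivity)
      nlinarith
    calc l * (p - p') ≤ l * (d * η) := by rw [e1]; gcongr
      _ = ε := by rw [hη]; field_simp
  obtain ⟨C, hC, hw⟩ := weakD hd hc'0 (hT c' hcc')
  set V : ℝ≥0∞ := volume (closedBall (0 : Vec d) 1) with hV
  have hV0 : V ≠ 0 := (measure_closedBall_pos volume _ one_pos).ne'
  have hVt : V ≠ ∞ := measure_closedBall_lt_top.ne
  set K : ℝ := 1 + 2 ^ s / (1 - 2 ^ (s - Q)) with hK
  have hK0 : 0 < K := by
    have hr1 : (2 : ℝ) ^ (s - Q) < 1 :=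
      Real.rpow_lt_one_of_one_lt_of_neg (by norm_num) (by linarith)
    have : (0 : ℝ) < 2 ^ s / (1 - 2 ^ (s - Q)) := div_pos (by positivity) (by linarith)
    linarith
  obtain ⟨w, hw0, hVw⟩ : ∃ w : ℝ, 0 < w ∧ V = ENNReal.ofReal w :=
    ⟨V.toReal, ENNReal.toReal_pos hV0 hVt, (ENNReal.ofReal_toReal hVt).symm⟩
  refine ⟨K * (w ^ (1 - s / Q) * C ^ (l / c')), by positivity, ?_⟩
  intro δ T B b hδ hδ1 hB f hf _
  set F : EuclideanSpace ℝ (Fin (d + 1)) → ℝ≥0∞ := fun x => ‖f ((iso d).symm x)‖ₑ with hF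
  have hFm : Measurable F := (hf.comp (iso d).symm.continuous.measurable).enorm
  have hFp : ∀ q : ℝ, ∫⁻ x, F x ^ q = ∫⁻ y, ‖f y‖ₑ ^ q := by
    intro q
    exact ((iso d).symm.measurePreserving).lintegral_comp (f := fun y => ‖f y‖ₑ ^ q)
      (hf.enorm.pow_const _)
  set G : Vec d → ℝ≥0∞ := fun v => kmax δ (fun x => F x ^ r) (iso d (dir v)) with hG
  have hlow : ∀ v, lineMax δ b f v ^ (l * p) ≤ G v ^ s := by
    intro v
    have h1 : lineMax δ b f v ≤ kmax δ F (iso d (dir v)) := lineMax_le_kmax δ b f v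
    have h2 := Pool.Agent.Y254.EL.kmax_pow hδ hδ1 (e := iso d (dir v))
      (by rw [LinearIsometryEquiv.norm_map, norm_dir]) F hr1
    have e : l * p = r * s := by rw [hs, ← hrp]; ring
    calc lineMax δ b f v ^ (l * p) ≤ kmax δ F (iso d (dir v)) ^ (l * p) :=
          ENNReal.rpow_le_rpow h1 (by positivity)
      _ = (kmax δ F (iso d (dir v)) ^ r) ^ s := by rw [e, ENNReal.rpow_mul]
      _ ≤ _ := ENNReal.rpow_le_rpow h2 hs0.le
  have hD0 : 0 < C * δ ^ (-((c' - 1) * (d : ℝ))) := by positivity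
  set A : ℝ≥0∞ := ENNReal.ofReal (C * δ ^ (-((c' - 1) * (d : ℝ)))) * (∫⁻ y, ‖f y‖ₑ ^ p) ^ c' with hA
  have hstr := strong_of_weak' (volume.restrict (closedBall (0 : Vec d) 1)) hs0 hsQ
    (V := V) (A := A) (G := G) (by rw [Measure.restrict_apply_univ]) hV0 hVt (by
      intro t ht
      rw [Measure.restrict_apply' measurableSet_closedBall]
      refine (measure_mono ?_).trans ((hw δ hδ hδ1 (fun x => F x ^ r)
        (hFm.pow_const _).aemeasurable t ht).trans (le_of_eq ?_))
      · rintro v ⟨h1, h2⟩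
        exact ⟨by simpa using h2, h1⟩
      · have e1 : ∫⁻ y, (F y ^ r) ^ (1 + (d : ℝ) / c') = ∫⁻ y, ‖f y‖ₑ ^ p := by
          rw [← hFp p]
          refine lintegral_congr fun x => ?_
          rw [← ENNReal.rpow_mul, hrp]
        rw [e1, ENNReal.ofReal_mul hD0.le, hA]
        ring)
  calc ∫⁻ v in B, lineMax δ b f v ^ (l * p)
      ≤ ∫⁻ v in closedBall (0 : Vec d) 1, lineMax δ b f v ^ (l * p) := lintegral_mono_set hB
    _ ≤ ∫⁻ v in closedBall (0 : Vec d) 1, G v ^ s := lintegral_mono hlow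
    _ ≤ ENNReal.ofReal K * (V ^ (1 - s / Q) * A ^ (s / Q)) := hstr
    _ ≤ _ := by
        have hlc' : 0 < l / c' := by positivity
        have h1s : 0 ≤ 1 - s / Q := by
          rw [sub_nonneg, div_le_one (by linarith)]; exact hsQ.le
        rw [hsQ', hA, ENNReal.mul_rpow_of_nonneg _ _ hlc'.le, ← ENNReal.rpow_mul,
          mul_div_cancel₀ _ hc'0.ne', ENNReal.ofReal_rpow_of_pos hD0, hVw,
          ENNReal.ofReal_rpow_of_pos hw0, ← mul_assoc, ← mul_assoc,
          ← ENNReal.ofReal_mul hK0.le, ← ENNReal.ofReal_mul (by positivity)]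
        gcongr ?_ * _
        apply ENNReal.ofReal_le_ofReal
        rw [Real.mul_rpow hC.le (by positivity), ← Real.rpow_mul hδ.le]
        have e2 : K * w ^ (1 - l / c') * (C ^ (l / c') * δ ^ (-((c' - 1) * (d : ℝ)) * (l / c')))
            = K * (w ^ (1 - l / c') * C ^ (l / c')) *
              δ ^ (-((c' - 1) * (d : ℝ)) * (l / c')) := by ring
        rw [e2]
        apply mul_le_mul_of_nonneg_left _ (by positivity)
        apply Real.rpow_le_rpow_of_exponent_ge hδ hδ1.le
        have e3 : -((c' - 1) * (d : ℝ)) * (l / c') = -(l * ((d : ℝ) + 1 - p')) := by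
          rw [hp']
          field_simp
          ring
        rw [e3]
        nlinarith

end Pool.Agent.N249.Tw
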