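import Pool.Agent.TH426.Kt.Main

set_option autoImplicit false

/-!
Interpolation of window bounds with the trivial bound, by Hoelder's inequality.
-/

open MeasureTheory Set ENNReal NNReal Metric Filter

namespace Pool.Agent.N249.Tw

open Pool.Agent.H803R2.Kak Pool.Agent.H803R2.KakFTO
open Pool.Agent.TH426.Kt

variable {d : ℕ}

/-- The trivial bound. -/
theorem W_le_triv {r : ℝ} {J : Set ℝ} {b : Vec d → Vec d} (g : Vec d × ℝ → ℝ≥0∞) (v : Vec d) :
    W r J (lin b) g v ≤ (volume (closedBall (0 : Vec d) r))⁻¹ * ∫⁻ t in J, ∫⁻ x, g (x, t) := by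
  unfold W
  by_cases hb0 : (volume (closedBall (0 : Vec d) r))⁻¹ = ∞
  · -- degenerate: the ball is null
    have hb1 : volume (closedBall (0 : Vec d) r) = 0 := ENNReal.inv_eq_top.1 hb0
    have hz : volume.restrict (closedBall (0 : Vec d) r) = 0 := Measure.restrict_eq_zero.2 hb1
    simp [nb, hz]
  rw [← lintegral_const_mul' _ _ hb0]
  apply lintegral_mono
  intro t
  show ∫⁻ w, g (lin b v t + w, t) ∂(nb d r) ≤ _
  rw [lintegral_nb]
  refine mul_le_mul_right ?_ _
  calc ∫⁻ w in closedBall (0 : Vec d) r, g (lin b v t + w, t)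
      ≤ ∫⁻ w, g (lin b v t + w, t) := setLIntegral_le_lintegral _ _
    _ = ∫⁻ x, g (x, t) := lintegral_add_left_eq_self (fun x => g (x, t)) (lin b v t)

/-- Hoelder's inequality for the window averages. -/
theorem W_holder {r : ℝ} {J : Set ℝ} {b : Vec d → Vec d} (hb : Measurable b)
    {X Y : Vec d × ℝ → ℝ≥0∞} (hX : Measurable X) (hY : Measurable Y) {α β : ℝ} (hα : 0 ≤ α)
    (hβ : 0 ≤ β) (hαβ : α + β = 1) (v : Vec d) :
    W r J (lin b) (fun z => X z ^ α * Y z ^ β) v ≤
      W r J (lin b) X v ^ α * W r J (lin b) Y v ^ β := by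
  have hlinv : Measurable (lin b v) := (measurable_lin hb).comp measurable_prodMk_left
  unfold W
  calc ∫⁻ t in J, ∫⁻ w, X (lin b v t + w, t) ^ α * Y (lin b v t + w, t) ^ β ∂(nb d r)
      ≤ ∫⁻ t in J, (∫⁻ w, X (lin b v t + w, t) ∂(nb d r)) ^ α *
          (∫⁻ w, Y (lin b v t + w, t) ∂(nb d r)) ^ β := by
        apply lintegral_mono
        intro t
        have hm : Measurable (fun w : Vec d => (lin b v t + w, t)) := by fun_prop
        exact ENNReal.lintegral_mul_norm_pow_le (hX.comp hm).aemeasurable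
          (hY.comp hm).aemeasurable hα hβ hαβ
    _ ≤ _ := ENNReal.lintegral_mul_norm_pow_le (measurable_avg hlinv hX).aemeasurable
          (measurable_avg hlinv hY).aemeasurable hα hβ hαβ

/-- Interpolation between the critical estimate and the trivial estimate. -/
theorem Wb_interp (hd : 1 ≤ d) {r : ℝ} {J : Set ℝ} {l : ℝ} (hl : 1 ≤ l) {C : ℝ≥0∞}
    {B : Set (Vec d)} {b : Vec d → Vec d} (hb : Measurable b)
    (h : Wb r J 1 (d + 1) C B b) :
    Wb r J l (1 + d / l) (C * (volume (closedBall (0 : Vec d) r))⁻¹ ^ (l - 1)) B b := by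
  have hd0 : (0 : ℝ) < d := by exact_mod_cast hd
  have hl0 : 0 < l := by linarith
  intro g hg
  set p : ℝ := 1 + d / l with hp
  set n : ℝ := (d : ℝ) + 1 with hn
  have hn0 : 0 < n := by positivity
  have hp0 : 0 < p := by positivity
  have hlp : l * p = l + d := by rw [hp]; field_simp
  set α : ℝ := (l - 1) / (l + d) with hα
  set β : ℝ := n / (l + d) with hβ
  have hα0 : 0 ≤ α := div_nonneg (by linarith) (by linarith)
  have hβ0 : 0 ≤ β := by positivity
  have hαβ : α + β = 1 := by rw [hα, hβ, hn]; field_simp; ring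
  have hαl : α * (l * p) = l - 1 := by rw [hα, hlp]; field_simp
  have hβl : β * (l * p) = n := by rw [hβ, hlp]; field_simp
  have hone : p * α + p / n * β = 1 := by
    rw [hα, hβ, hp]
    field_simp
    ring
  have hgeq : g = fun z => (g z ^ p) ^ α * (g z ^ (p / n)) ^ β := by
    funext z
    rw [← ENNReal.rpow_mul, ← ENNReal.rpow_mul,
      ← ENNReal.rpow_add_of_nonneg _ _ (by positivity) (by positivity), hone, ENNReal.rpow_one]
  set I : ℝ≥0∞ := ∫⁻ t in J, ∫⁻ x, g (x, t) ^ p with hI
  set κ : ℝ≥0∞ := (volume (closedBall (0 : Vec d) r))⁻¹ with hκ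
  have hpt : ∀ v, W r J (lin b) g v ^ (l * p) ≤
      (κ * I) ^ (l - 1) * W r J (lin b) (fun z => g z ^ (p / n)) v ^ (1 * n) := by
    intro v
    have h1 : W r J (lin b) g v ≤ W r J (lin b) (fun z => g z ^ p) v ^ α *
        W r J (lin b) (fun z => g z ^ (p / n)) v ^ β := by
      conv_lhs => rw [hgeq]
      exact W_holder hb (hg.pow_const _) (hg.pow_const _) hα0 hβ0 hαβ v
    calc W r J (lin b) g v ^ (l * p)
        ≤ (W r J (lin b) (fun z => g z ^ p) v ^ α *
        W r J (lin b) (fun z => g z ^ (p / n)) v ^ β) ^ (l * p) :=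
          ENNReal.rpow_le_rpow h1 (by positivity)
      _ = W r J (lin b) (fun z => g z ^ p) v ^ (l - 1) *
          W r J (lin b) (fun z => g z ^ (p / n)) v ^ (1 * n) := by
          rw [ENNReal.mul_rpow_of_nonneg _ _ (by positivity), ← ENNReal.rpow_mul,
            ← ENNReal.rpow_mul, hαl, hβl, one_mul]
      _ ≤ _ := by
          gcongr
          exact W_le_triv _ v
  have hWm : Measurable (W r J (lin b) (fun z => g z ^ (p / n))) :=
    measurable_W1 _ _ (measurable_lin hb) (hg.pow_const _)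
  calc ∫⁻ v in B, W r J (lin b) g v ^ (l * p)
      ≤ ∫⁻ v in B, (κ * I) ^ (l - 1) * W r J (lin b) (fun z => g z ^ (p / n)) v ^ (1 * n) :=
        lintegral_mono hpt
    _ = (κ * I) ^ (l - 1) * ∫⁻ v in B, W r J (lin b) (fun z => g z ^ (p / n)) v ^ (1 * n) :=
        lintegral_const_mul _ (hWm.pow_const _)
    _ ≤ (κ * I) ^ (l - 1) * (C * (∫⁻ t in J, ∫⁻ x, (g (x, t) ^ (p / n)) ^ n) ^ (1 : ℝ)) := by
        gcongr
        exact h (fun z => g z ^ (p / n)) (hg.pow_const _)
    _ = (κ * I) ^ (l - 1) * (C * I) := by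
        rw [ENNReal.rpow_one]
        congr 2
        rw [hI]
        congr 1
        funext t
        congr 1
        funext x
        rw [← ENNReal.rpow_mul, div_mul_cancel₀ _ hn0.ne']
    _ = C * κ ^ (l - 1) * I ^ l := by
        rw [ENNReal.mul_rpow_of_nonneg _ _ (by linarith)]
        have e : I ^ l = I ^ (l - 1) * I := by
          nth_rewrite 3 [← ENNReal.rpow_one I]
          rw [← ENNReal.rpow_add_of_nonneg _ _ (by linarith) (by norm_num), sub_add_cancel]
        rw [e]
        ring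

end Pool.Agent.N249.Tw
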