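import Pool.Agent.N249.Tw.Arb
import Pool.Agent.N249.Tw.Interp

set_option autoImplicit false

/-!
The class of stages and the theorem on towers.
-/

open MeasureTheory Set ENNReal NNReal Metric Filter

namespace Pool.Agent.N249.Tw

open Pool.Agent.H803R2.Kak Pool.Agent.H803R2.KakFTO
open Pool.Agent.TH426.Kt
open Pool.Agent.Y244.WR (TubeQ)

/-- The stages, for the mixed norm estimates with the parameter `l`. -/
inductive Cls (l : ℝ) (A : ℕ → ℝ) (c : ℝ → ℕ → ℝ≥0) (s : ℕ → ℝ) :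
    (d : ℕ) → ℝ → ℝ≥0 → Set (Vec d) → (Vec d → Vec d) → Prop
  | good {d : ℕ} {M : ℝ≥0} {B : Set (Vec d)} {b : Vec d → Vec d} (hd : 1 ≤ d)
      (h : AllB univ A d (d + 1) M B b) : Cls l A c s d (1 + d / l) M B b
  | arbitrary {d : ℕ} {B : Set (Vec d)} {b : Vec d → Vec d} (hd : 1 ≤ d) (hB : MeasurableSet B)
      (hB1 : B ⊆ closedBall 0 1) (hb : Measurable b)
      (hs : ∀ c' : ℝ, s d < c' → TubeQ d (1 + c' / d)) :
      Cls l A c s d (1 + d / max l (s d)) 1 B b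
  | maximal {d : ℕ} {p : ℝ} {M : ℝ≥0} {B : Set (Vec d)} {b : Vec d → Vec d} (hd : 1 ≤ d)
      (hB : MeasurableSet B) (hB1 : B ⊆ closedBall 0 1) (hb : Measurable b) (hp : 1 ≤ p)
      (hp' : p ≤ d + 1)
      (h : ∀ ε : ℝ, 0 < ε → ∀ δ : ℝ, 0 < δ → δ < 1 →
        LMb δ univ l p (c ε d * M * ENNReal.ofReal (δ ^ (-(l * ((d : ℝ) + 1 - p) + ε)))) B b) :
      Cls l A c s d p M B b

theorem cls_reg {l : ℝ} (hl : 1 ≤ l) (A : ℕ → ℝ) (c : ℝ → ℕ → ℝ≥0) (s : ℕ → ℝ) :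
    RegBase (Cls l A c s) := by
  have hdiv : ∀ (d : ℕ) (m : ℝ), 1 ≤ m → 1 ≤ 1 + (d : ℝ) / m ∧ 1 + (d : ℝ) / m ≤ d + 1 := by
    intro d m hm
    have h0 : (0 : ℝ) ≤ d := Nat.cast_nonneg d
    have h1 : 0 ≤ (d : ℝ) / m := by positivity
    have h2 : (d : ℝ) / m ≤ d := div_le_self h0 hm
    constructor <;> linarith
  constructor
  · intro d p N B b h
    cases h with
    | good hd h => exact (allB_reg univ A).meas h
    | arbitrary hd hB hB1 hb hs => exact ⟨hB, hB1, hb⟩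
    | maximal hd hB hB1 hb hp hp' h => exact ⟨hB, hB1, hb⟩
  · intro d p N B b h
    cases h with
    | good hd h => exact hdiv d l hl
    | arbitrary hd hB hB1 hb hs => exact hdiv d _ (hl.trans (le_max_left _ _))
    | maximal hd hB hB1 hb hp hp' h => exact ⟨hp, hp'⟩

/-- The constant of the transfer. -/
noncomputable def tc (l : ℝ) (d : ℕ) : ℝ≥0∞ :=
  (2 ^ d) ^ (l * ((d : ℝ) + 1)) * (3 * 8 ^ d) ^ (l * ((d : ℝ) + 1))

theorem tc_ne_top {l : ℝ} (hl : 0 ≤ l) (d : ℕ) : tc l d ≠ ∞ := by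
  have h0 : (0 : ℝ) ≤ l * ((d : ℝ) + 1) := by positivity
  apply ENNReal.mul_ne_top
  · exact ENNReal.rpow_ne_top_of_nonneg h0 (ENNReal.pow_ne_top (by simp))
  · exact ENNReal.rpow_ne_top_of_nonneg h0 (ENNReal.mul_ne_top (by simp) (ENNReal.pow_ne_top (by simp)))

theorem one_le_two_pow (d : ℕ) : (1 : ℝ≥0∞) ≤ 2 ^ d := one_le_pow₀ (by norm_num)

theorem one_le_38 (d : ℕ) : (1 : ℝ≥0∞) ≤ 3 * 8 ^ d := by
  have h : (1 : ℝ≥0∞) ≤ 8 ^ d := one_le_pow₀ (by norm_num)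
  calc (1 : ℝ≥0∞) = 1 * 1 := by norm_num
    _ ≤ 3 * 8 ^ d := by
        gcongr
        norm_num

theorem mu_pow {l δ : ℝ} (hδ : 0 < δ) (x : ℝ) :
    ENNReal.ofReal (δ ^ (-l)) ^ x = ENNReal.ofReal (δ ^ (-(l * x))) := by
  rw [ENNReal.ofReal_rpow_of_pos (by positivity), ← Real.rpow_mul hδ.le]
  congr 2
  ring

/-- From the maximal function to the windows, in the normalisation used for towers. -/
theorem wb_of_lmb' {d : ℕ} (hd : 1 ≤ d) {l : ℝ} (hl : 1 ≤ l) {p : ℝ} (hp : 1 ≤ p)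
    (hp' : p ≤ d + 1) {ε δ : ℝ} (hε : 0 < ε) (hδ : 0 < δ) (hδ1 : δ < 1) {B : Set (Vec d)}
    (hB : MeasurableSet B) (hB1 : B ⊆ closedBall 0 1) {b : Vec d → Vec d} (hb : Measurable b)
    {C : ℝ≥0∞} (h : LMb δ univ l p (C * ENNReal.ofReal (δ ^ (-(l * ((d : ℝ) + 1 - p) + ε)))) B b)
    (k : ℤ) :
    Wb (3 * δ) (win univ k) l p
      (tc l d * C * Pw ε δ ^ d * ENNReal.ofReal (δ ^ (-l)) ^ ((d : ℝ) + 1 - p)) B b := by
  have hl0 : 0 < l := by linarith
  refine (wb_of_lmb hδ hδ1 MeasurableSet.univ hl0.le (by linarith)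
    (one_le_mul_of_one_le_of_one_le hl hp) hB hB1 hb h k).mono ?_ subset_rfl
  have e1 : ENNReal.ofReal (δ ^ (-(l * ((d : ℝ) + 1 - p) + ε))) =
      Pw ε δ * ENNReal.ofReal (δ ^ (-l)) ^ ((d : ℝ) + 1 - p) := by
    rw [mu_pow hδ, Pw, ← ENNReal.ofReal_mul (by positivity), ← Real.rpow_add hδ]
    congr 2
    ring
  have h1 : Pw ε δ ≤ Pw ε δ ^ d := le_self_pow₀ (one_le_Pw hε hδ hδ1) (by omega)
  have hlp : l * p ≤ l * ((d : ℝ) + 1) := by gcongr
  rw [e1]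
  calc (2 ^ d : ℝ≥0∞) ^ (l * p) * ((3 * 8 ^ d) ^ (l * p) *
        (C * (Pw ε δ * ENNReal.ofReal (δ ^ (-l)) ^ ((d : ℝ) + 1 - p))))
      ≤ (2 ^ d) ^ (l * ((d : ℝ) + 1)) * ((3 * 8 ^ d) ^ (l * ((d : ℝ) + 1)) *
        (C * (Pw ε δ ^ d * ENNReal.ofReal (δ ^ (-l)) ^ ((d : ℝ) + 1 - p)))) := by
        gcongr
        · exact one_le_two_pow d
        · exact one_le_38 d
    _ = _ := by unfold tc; ring

/-- The window bounds for all stages. -/
theorem cls_bd {l : ℝ} (hl : 1 ≤ l) (A : ℕ → ℝ) (c : ℝ → ℕ → ℝ≥0) (s : ℕ → ℝ) {ε : ℝ}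
    (hε : 0 < ε) : ∃ c' : ℕ → ℝ≥0∞, (∀ d, c' d ≠ ∞) ∧ ∀ (δ : ℝ) (k : ℤ), 0 < δ → δ < 1 →
      BaseBd (Cls l A c s) (3 * δ) (win univ k) l c' (Pw ε δ) (ENNReal.ofReal (δ ^ (-l))) := by
  have hl0 : 0 < l := by linarith
  obtain ⟨c2, hc2, hbd⟩ := allB_bd A ε hε
  choose! C3 hC3 h3 using fun (d : ℕ) (hd : 1 ≤ d)
    (hs : ∀ c' : ℝ, s d < c' → TubeQ d (1 + c' / d)) =>
    arb_lmb (c := max l (s d)) hd hl (le_max_left _ _)
      (fun c' h => hs c' (lt_of_le_of_lt (le_max_right _ _) h)) hε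
  set w : ℕ → ℝ := fun d => (volume (closedBall (0 : Vec d) 1)).toReal with hw
  have hw0 : ∀ d, 0 < w d := fun d =>
    ENNReal.toReal_pos (measure_closedBall_pos volume _ one_pos).ne' measure_closedBall_lt_top.ne
  refine ⟨fun d => c2 d * ENNReal.ofReal ((w d) ^ (-(l - 1))) + tc l d * ENNReal.ofReal (C3 d) +
    tc l d * c ε d, fun d => ?_, ?_⟩
  · refine ENNReal.add_ne_top.2 ⟨ENNReal.add_ne_top.2 ⟨?_, ?_⟩, ?_⟩
    · exact ENNReal.mul_ne_top (hc2 d) ENNReal.ofReal_ne_top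
    · exact ENNReal.mul_ne_top (tc_ne_top hl0.le d) ENNReal.ofReal_ne_top
    · exact ENNReal.mul_ne_top (tc_ne_top hl0.le d) ENNReal.coe_ne_top
  intro δ k hδ hδ1 d p M B b hb
  have hreg := (cls_reg hl A c s).expo hb
  cases hb with
  | good hd h =>
    have hd0 : (0 : ℝ) < d := by exact_mod_cast hd
    have h1 := hbd univ δ k MeasurableSet.univ hδ hδ1 h
    rw [ENNReal.one_rpow, mul_one] at h1
    refine (Wb_interp hd hl ((allB_reg univ A).meas h).2.2 h1).mono ?_ subset_rfl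
    have hκ : (volume (closedBall (0 : Vec d) (3 * δ)))⁻¹ ^ (l - 1) ≤
        ENNReal.ofReal ((w d) ^ (-(l - 1))) *
          ENNReal.ofReal (δ ^ (-l)) ^ ((d : ℝ) + 1 - (1 + d / l)) := by
      have e1 : ENNReal.ofReal (w d * δ ^ d) ≤ volume (closedBall (0 : Vec d) (3 * δ)) := by
        rw [Measure.addHaar_closedBall' volume (0 : Vec d) (by positivity),
          finrank_euclideanSpace_fin,
          ← ENNReal.ofReal_toReal (measure_closedBall_lt_top (μ := (volume : Measure (Vec d)))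
          (x := 0) (r := 1)).ne, ← ENNReal.ofReal_mul (by positivity)]
        apply ENNReal.ofReal_le_ofReal
        rw [mul_comm]
        have : δ ^ d ≤ (3 * δ) ^ d := by gcongr; linarith
        exact mul_le_mul_of_nonneg_right this (hw0 d).le
      have hpos : 0 < w d * δ ^ d := mul_pos (hw0 d) (by positivity)
      calc (volume (closedBall (0 : Vec d) (3 * δ)))⁻¹ ^ (l - 1)
          ≤ (ENNReal.ofReal (w d * δ ^ d))⁻¹ ^ (l - 1) := by
            gcongr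
        _ = ENNReal.ofReal ((w d * δ ^ d) ^ (-(l - 1))) := by
            rw [← ENNReal.ofReal_inv_of_pos hpos, ENNReal.ofReal_rpow_of_pos (by positivity),
              Real.inv_rpow hpos.le, ← Real.rpow_neg hpos.le]
        _ = _ := by
            rw [mu_pow hδ, ← ENNReal.ofReal_mul (by have := hw0 d; positivity),
              Real.mul_rpow (hw0 d).le (by positivity), ← Real.rpow_natCast,
              ← Real.rpow_mul hδ.le]
            congr 3
            field_simp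
            ring
    calc c2 d * M * Pw ε δ ^ d * (volume (closedBall (0 : Vec d) (3 * δ)))⁻¹ ^ (l - 1)
        ≤ c2 d * M * Pw ε δ ^ d * (ENNReal.ofReal ((w d) ^ (-(l - 1))) *
          ENNReal.ofReal (δ ^ (-l)) ^ ((d : ℝ) + 1 - (1 + d / l))) := by gcongr
      _ = (c2 d * ENNReal.ofReal ((w d) ^ (-(l - 1)))) * M * Pw ε δ ^ d *
          ENNReal.ofReal (δ ^ (-l)) ^ ((d : ℝ) + 1 - (1 + d / l)) := by ring
      _ ≤ _ := by
          gcongr
          show c2 d * ENNReal.ofReal ((w d) ^ (-(l - 1))) ≤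
            c2 d * ENNReal.ofReal ((w d) ^ (-(l - 1))) + tc l d * ENNReal.ofReal (C3 d) +
              tc l d * c ε d
          rw [add_assoc]
          exact le_self_add
  | arbitrary hd hB hB1 hbm hs =>
    refine (wb_of_lmb' hd hl hreg.1 hreg.2 hε hδ hδ1 hB hB1 hbm (C := ENNReal.ofReal (C3 d)) ?_ k).mono
      ?_ subset_rfl
    · have := h3 d hd hs δ univ B b hδ hδ1 hB1
      rwa [ENNReal.ofReal_mul (hC3 d hd hs).le] at this
    · rw [ENNReal.coe_one, mul_one]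
      gcongr
      calc tc l d * ENNReal.ofReal (C3 d)
          ≤ c2 d * ENNReal.ofReal ((w d) ^ (-(l - 1))) + tc l d * ENNReal.ofReal (C3 d) := le_add_self
        _ ≤ _ := le_self_add
  | maximal hd hB hB1 hbm hp hp' h =>
    refine (wb_of_lmb' hd hl hp hp' hε hδ hδ1 hB hB1 hbm (h ε hε δ hδ hδ1) k).mono ?_ subset_rfl
    rw [← mul_assoc (tc l d)]
    gcongr
    exact le_add_self

/-- **Towers with arbitrary stages.** -/
theorem tower_main {l : ℝ} (hl : 1 ≤ l) (A : ℕ → ℝ) (c : ℝ → ℕ → ℝ≥0) (s : ℕ → ℝ) (d : ℕ)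
    (hd : 1 ≤ d) {ε : ℝ} (hε : 0 < ε) : ∃ C : ℝ, 0 < C ∧ ∀ (p : ℝ) (M : ℝ≥0) (B : Set (Vec d))
      (b : Vec d → Vec d), KTower (Cls l A c s) d p M B b → ∀ δ : ℝ, 0 < δ → δ < 1 →
      LMb δ univ l p (ENNReal.ofReal (C * M * δ ^ (-(l * ((d : ℝ) + 1 - p) + ε)))) B b := by
  have hd0 : (0 : ℝ) < d := by exact_mod_cast hd
  have hl0 : 0 < l := by linarith
  obtain ⟨c', hc', hbd⟩ := cls_bd hl A c s (ε := ε / d) (by positivity)
  set K : ℝ≥0∞ := cb d ^ (l * ((d : ℝ) + 1)) * cc c' (KK l) d with hK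
  have hKt : K ≠ ∞ := by
    apply ENNReal.mul_ne_top
    · exact ENNReal.rpow_ne_top_of_nonneg (by positivity) (cb_ne_top d)
    · exact cc_ne_top hc' (KK_ne_top hl0.le) d
  refine ⟨K.toReal + 1, by positivity, ?_⟩
  intro p M B b hT δ hδ hδ1
  have h𝓑 := cls_reg hl A c s
  rcases B.eq_empty_or_nonempty with hne | hne
  · rw [hne]
    intro f _ _
    simp
  obtain ⟨hp1, hp2⟩ := hT.expo h𝓑 hne
  obtain ⟨hB, hB1, hbm⟩ := hT.meas h𝓑
  have hΛ : Pw (ε / d) δ ≠ 0 := by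
    have := one_le_Pw (ε := ε / d) (by positivity) hδ hδ1
    exact (lt_of_lt_of_le one_pos this).ne'
  have hμ : ENNReal.ofReal (δ ^ (-l)) ≠ 0 := (ENNReal.ofReal_pos.2 (by positivity)).ne'
  have hw : ∀ k : ℤ, Wb (3 * δ) (win univ k) l p
      (cc c' (KK l) d * M * Pw (ε / d) δ ^ d * ENNReal.ofReal (δ ^ (-l)) ^ ((d : ℝ) + 1 - p)) B b :=
    fun k => hT.bound h𝓑 (r := 3 * δ) (by linarith) (J := win univ k) hl0 hΛ (Pw_ne_top _ _) hμ
      ENNReal.ofReal_ne_top hc' (hbd δ k hδ hδ1)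
  have key := LMb_of_Wb hδ hδ1 MeasurableSet.univ hl (by linarith) hB hB1 hbm
    (b' := b) (fun v _ => by simpa using hδ.le) hw
  intro f hf hfT
  refine (key f hf hfT).trans ?_
  gcongr ?_ * _
  have h1 : cb d ^ (l * p) ≤ cb d ^ (l * ((d : ℝ) + 1)) := by
    apply ENNReal.rpow_le_rpow_of_exponent_le
    · unfold cb
      have h2 : (1 : ℝ≥0∞) ≤ 16 ^ d := one_le_pow₀ (by norm_num)
      calc (1 : ℝ≥0∞) = 1 * 1 := by norm_num
        _ ≤ 52 * 16 ^ d := by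
            gcongr
            norm_num
    · gcongr
  have h2 : Pw (ε / d) δ ^ d = ENNReal.ofReal (δ ^ (-ε)) := by
    unfold Pw
    rw [← ENNReal.ofReal_pow (by positivity), ← Real.rpow_natCast, ← Real.rpow_mul hδ.le]
    congr 2
    field_simp
  calc cb d ^ (l * p) * (cc c' (KK l) d * M * Pw (ε / d) δ ^ d *
        ENNReal.ofReal (δ ^ (-l)) ^ ((d : ℝ) + 1 - p))
      ≤ cb d ^ (l * ((d : ℝ) + 1)) * (cc c' (KK l) d * M * Pw (ε / d) δ ^ d *
        ENNReal.ofReal (δ ^ (-l)) ^ ((d : ℝ) + 1 - p)) := by gcongr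
    _ = K * (M * (ENNReal.ofReal (δ ^ (-ε)) * ENNReal.ofReal (δ ^ (-(l * ((d : ℝ) + 1 - p)))))) := by
        rw [hK, h2, mu_pow hδ]; ring
    _ ≤ ENNReal.ofReal (K.toReal + 1) *
        (M * (ENNReal.ofReal (δ ^ (-ε)) * ENNReal.ofReal (δ ^ (-(l * ((d : ℝ) + 1 - p)))))) := by
        gcongr
        rw [← ENNReal.ofReal_toReal hKt]
        apply ENNReal.ofReal_le_ofReal
        rw [ENNReal.ofReal_toReal hKt]
        linarith
    _ = _ := by
        rw [← ENNReal.ofReal_mul (by positivity), ← Real.rpow_add hδ,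
          ENNReal.ofReal_mul (p := (K.toReal + 1) * M) (by positivity),
          ENNReal.ofReal_mul (by positivity), ENNReal.ofReal_coe_nnreal]
        have e : -ε + -(l * ((d : ℝ) + 1 - p)) = -(l * ((d : ℝ) + 1 - p) + ε) := by ring
        rw [e]
        ring

end Pool.Agent.N249.Tw
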