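import Pool.Agent.N249.Tw.Class
import Pool.Agent.Y254.HK.FinalG

set_option autoImplicit false

/-!
The two sources of the bound for tubes.
-/

open MeasureTheory Set ENNReal NNReal Metric Filter

namespace Pool.Agent.N249.Tw

open Pool.Agent.Y244.WR (TubeQ)

theorem tubeQ_mix {d : ℕ} (hd : 9 ≤ d) {x c : ℝ} (h : Pool.Agent.Y254HK.Cd d x c) :
    TubeQ d (1 + c / d) := by
  obtain ⟨C, hC, h⟩ := Pool.Agent.Y254HK.tubes_mix hd h le_rfl
  refine ⟨C, hC, fun δ hδ hδ1 ι _ a e he hsep => ?_⟩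
  refine (h δ hδ hδ1 ι a e he hsep).trans (le_of_eq ?_)
  congr 1
  rw [← Real.rpow_natCast δ d, mul_assoc]

theorem tubeQ_wolff {d : ℕ} (hd : 2 ≤ d) {c : ℝ} (hc : 2 * (d : ℝ) / (d + 1) < c) :
    TubeQ d (1 + c / d) := by
  apply Pool.Agent.Y244.WR.tubeQ_wolff hd
  have hd0 : (0 : ℝ) < d := by exact_mod_cast (by omega : 0 < d)
  have h1 : 2 / ((d : ℝ) + 1) < c / (d : ℝ) := by
    rw [lt_div_iff₀ hd0]
    calc 2 / ((d : ℝ) + 1) * d = 2 * (d : ℝ) / (d + 1) := by ring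
      _ < c := hc
  linarith

end Pool.Agent.N249.Tw
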