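import Pool.Agent.TH426.Kt.Main
import Pool.Agent.Y244.WR.Max
import Pool.Agent.Y254.EL.Dual3

set_option autoImplicit false

/-!
Arbitrary families of lines parametrised by slopes: the weak type estimate.
-/

open MeasureTheory Set ENNReal NNReal Metric Filter

namespace Pool.Agent.N249.Tw

open Pool.Agent.H803R2.Kak Pool.Agent.H803R2.KakFTO
open Pool.Agent.W46.HM (kmax)

variable {d : ℕ}

theorem finrank_space (d : ℕ) : Module.finrank ℝ (Space d) = d + 1 := by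
  have h1 : Module.finrank ℝ (Space d) = Module.finrank ℝ (Vec d × ℝ) :=
    (WithLp.linearEquiv 2 ℝ (Vec d × ℝ)).finrank_eq
  rw [h1]
  simp

/-- The isometry with the coordinate space. -/
noncomputable def iso (d : ℕ) : Space d ≃ₗᵢ[ℝ] EuclideanSpace ℝ (Fin (d + 1)) :=
  ((stdOrthonormalBasis ℝ (Space d)).reindex (finCongr (finrank_space d))).repr

/-- Tubes correspond to tubes. -/
theorem tube_iso (δ : ℝ) (e a y : Space d) :
    y ∈ tube δ e a ↔ iso d y ∈ Pool.Agent.W46.KK.tube δ (iso d a) (iso d e) := by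
  show (|inner ℝ (y - a) e| ≤ 1 / 2 ∧ ‖(y - a) - (inner ℝ (y - a) e : ℝ) • e‖ ≤ δ) ↔
    (|inner ℝ (iso d y - iso d a) (iso d e)| ≤ 1 / 2 ∧
      ‖(iso d y - iso d a) - (inner ℝ (iso d y - iso d a) (iso d e) : ℝ) • iso d e‖ ≤ δ)
  rw [← map_sub, LinearIsometryEquiv.inner_map_map, ← map_smul, ← map_sub,
    LinearIsometryEquiv.norm_map]

/-- The maximal function over the tubes of a family is at most the Kakeya maximal function. -/
theorem lineMax_le_kmax (δ : ℝ) (b : Vec d → Vec d) (f : Space d → ℝ) (v : Vec d) :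
    lineMax δ b f v ≤ kmax δ (fun x => ‖f ((iso d).symm x)‖ₑ) (iso d (dir v)) := by
  unfold lineMax
  apply iSup_le
  intro s
  set a := linePt b v s with ha
  have hmp := (iso d).measurePreserving
  have hme : MeasurableEmbedding (iso d : Space d → EuclideanSpace ℝ (Fin (d + 1))) :=
    (iso d).toHomeomorph.measurableEmbedding
  have hpre : tube δ (dir v) a =
      (iso d) ⁻¹' (Pool.Agent.W46.KK.tube δ (iso d a) (iso d (dir v))) := by
    ext y
    exact tube_iso δ (dir v) a y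
  have h1 : volume (tube δ (dir v) a) =
      volume (Pool.Agent.W46.KK.tube δ (iso d a) (iso d (dir v))) := by
    rw [hpre]
    exact hmp.measure_preimage_emb hme _
  have h2 : ∫⁻ y in tube δ (dir v) a, ‖f y‖ₑ =
      ∫⁻ x in Pool.Agent.W46.KK.tube δ (iso d a) (iso d (dir v)), ‖f ((iso d).symm x)‖ₑ := by
    rw [← hmp.setLIntegral_comp_preimage_emb hme, ← hpre]
    apply lintegral_congr
    intro y
    rw [LinearIsometryEquiv.symm_apply_apply]
  rw [h1, h2]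
  unfold kmax
  exact le_iSup (fun a => (volume (Pool.Agent.W46.KK.tube δ a (iso d (dir v))))⁻¹ *
    ∫⁻ x in Pool.Agent.W46.KK.tube δ a (iso d (dir v)), ‖f ((iso d).symm x)‖ₑ) (iso d a)

theorem norm_dir (v : Vec d) : ‖dir v‖ = 1 := by
  have hw : 0 < 1 + ‖v‖ ^ 2 := by positivity
  have hs : 0 < √(1 + ‖v‖ ^ 2) := Real.sqrt_pos.mpr hw
  have hs2 : √(1 + ‖v‖ ^ 2) ^ 2 = 1 + ‖v‖ ^ 2 := Real.sq_sqrt hw.le
  have hdir : ‖dir v‖ ^ 2 = 1 := by
    rw [dir, norm_smul, mul_pow, WithLp.prod_norm_sq_eq_of_L2]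
    rw [norm_inv, Real.norm_eq_abs, abs_of_pos hs, inv_pow, hs2]
    have : ‖(WithLp.toLp 2 (v, (1:ℝ)) : Space d).fst‖ ^ 2
        + ‖(WithLp.toLp 2 (v, (1:ℝ)) : Space d).snd‖ ^ 2 = 1 + ‖v‖ ^ 2 := by
      show ‖v‖ ^ 2 + ‖(1:ℝ)‖ ^ 2 = 1 + ‖v‖ ^ 2
      simp; ring
    rw [this]
    field_simp
  nlinarith [norm_nonneg (dir v)]

/-- The directions are separated. -/
theorem dir_sep (v v' : Vec d) (hv : ‖v‖ ≤ 2) (hv' : ‖v'‖ ≤ 2) :
    ‖v - v'‖ ≤ 8 * ‖dir v - dir v'‖ := by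
  set s : ℝ := (√(1 + ‖v‖ ^ 2))⁻¹ with hs
  set s' : ℝ := (√(1 + ‖v'‖ ^ 2))⁻¹ with hs'
  set D : ℝ := ‖dir v - dir v'‖ with hD
  have hD0 : 0 ≤ D := norm_nonneg _
  have hsq : D ^ 2 = ‖s • v - s' • v'‖ ^ 2 + (s - s') ^ 2 := by
    have e1 : dir v - dir v' = (WithLp.toLp 2 (s • v - s' • v', s - s') : Space d) := by
      unfold dir
      rw [← WithLp.toLp_smul, ← WithLp.toLp_smul, ← WithLp.toLp_sub]
      congr 1
      simp [hs, hs', Prod.smul_mk]
    rw [hD, e1, WithLp.prod_norm_sq_eq_of_L2]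
    show ‖s • v - s' • v'‖ ^ 2 + ‖s - s'‖ ^ 2 = _
    rw [Real.norm_eq_abs, sq_abs]
  have h1 : ‖s • v - s' • v'‖ ≤ D := by
    apply le_of_sq_le_sq _ hD0
    rw [hsq]; nlinarith [sq_nonneg (s - s')]
  have h2 : |s - s'| ≤ D := by
    apply abs_le_of_sq_le_sq _ hD0
    rw [hsq]; nlinarith [sq_nonneg ‖s • v - s' • v'‖]
  have hs38 : 3 / 8 ≤ s := by
    have h3 : √(1 + ‖v‖ ^ 2) ≤ 8 / 3 := by
      rw [Real.sqrt_le_left (by norm_num)]
      nlinarith [norm_nonneg v]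
    have h4 : 0 < √(1 + ‖v‖ ^ 2) := by positivity
    rw [hs, le_inv_comm₀ (by norm_num) h4]
    linarith
  have hs0 : 0 < s := by linarith
  have h5 : s * ‖v - v'‖ ≤ 3 * D := by
    calc s * ‖v - v'‖ = ‖s • (v - v')‖ := by rw [norm_smul, Real.norm_of_nonneg hs0.le]
      _ = ‖(s • v - s' • v') + (s' - s) • v'‖ := by
          congr 1
          rw [smul_sub, sub_smul]; abel
      _ ≤ ‖s • v - s' • v'‖ + ‖(s' - s) • v'‖ := norm_add_le _ _
      _ ≤ D + D * 2 := by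
          rw [norm_smul, Real.norm_eq_abs, abs_sub_comm]
          exact add_le_add h1 (mul_le_mul h2 hv' (norm_nonneg _) hD0)
      _ = 3 * D := by ring
  nlinarith [norm_nonneg (v - v')]

end Pool.Agent.N249.Tw
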