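import Pool.Agent.N249.Tw.Weak

set_option autoImplicit false

/-!
The weak type estimate over the ball of slopes.
-/

open MeasureTheory Set ENNReal NNReal Metric Filter

namespace Pool.Agent.N249.Tw

open Pool.Agent.H803R2.Kak Pool.Agent.H803R2.KakFTO
open Pool.Agent.W46.HM (kmax)
open Pool.Agent.Y244.WR (TubeQ)

variable {d : ℕ}

theorem weakD (hd : 1 ≤ d) {c : ℝ} (hc0 : 0 < c) (h : TubeQ d (1 + c / d)) :
    ∃ C : ℝ, 0 < C ∧ ∀ δ : ℝ, 0 < δ → δ < 1 →
      ∀ f : EuclideanSpace ℝ (Fin (d + 1)) → ℝ≥0∞, AEMeasurable f volume → ∀ l : ℝ, 0 < l →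
      volume {v : Vec d | ‖v‖ ≤ 1 ∧ ENNReal.ofReal l < kmax δ f (iso d (dir v))} ≤
        ENNReal.ofReal (C * δ ^ (-((c - 1) * (d : ℝ))) * l ^ (-((d : ℝ) + c))) *
          (∫⁻ y, f y ^ (1 + (d : ℝ) / c)) ^ c := by
  have hd0 : 0 < d := by omega
  have hdR : (0 : ℝ) < d := by exact_mod_cast hd0
  set q : ℝ := 1 + c / d with hq
  set p : ℝ := 1 + d / c with hp
  have hp0 : 0 < p := by positivity
  have hq0 : 0 < q := by positivity
  have hpq : p.HolderConjugate q := by
    rw [Real.holderConjugate_iff]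
    refine ⟨?_, ?_⟩
    · rw [hp]
      have : 0 < (d : ℝ) / c := by positivity
      linarith
    · rw [hp, hq]
      field_simp
      ring
  obtain ⟨C0, hC0, hT⟩ := h
  set C1 : ℝ := 8 ^ d * (volume (closedBall (0 : Vec d) 1)).toReal with hC1d
  have hvb : 0 < (volume (closedBall (0 : Vec d) 1)).toReal :=
    ENNReal.toReal_pos (measure_closedBall_pos volume _ one_pos).ne' measure_closedBall_lt_top.ne
  have hC1 : 0 < C1 := by positivity
  have hcap : ∀ (v : Vec d) (δ : ℝ), 0 < δ → volume (closedBall v (8 * δ)) ≤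
      ENNReal.ofReal (C1 * δ ^ d) := by
    intro v δ hδ
    rw [Measure.addHaar_closedBall_center, Measure.addHaar_closedBall' volume (0 : Vec d) (by positivity),
      finrank_euclideanSpace_fin]
    rw [← ENNReal.ofReal_toReal (measure_closedBall_lt_top (μ := (volume : Measure (Vec d)))
      (x := 0) (r := 1)).ne, ← ENNReal.ofReal_mul (by positivity)]
    apply le_of_eq
    congr 1
    rw [hC1d, mul_pow]
    ring
  obtain ⟨κ, hκ, hvol⟩ := Pool.Agent.W131.HM.VOL d
  refine ⟨C1 * (C0 ^ (d : ℝ) * κ ^ (-((d : ℝ) + c))), by positivity,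
    fun δ hδ hδ1 f hf l hl => ?_⟩
  set A : ℝ≥0∞ := ∫⁻ y, f y ^ p with hA
  set E : Set (Vec d) := {v | ‖v‖ ≤ 1 ∧ ENNReal.ofReal l < kmax δ f (iso d (dir v))} with hE
  set D : ℝ := C1 * (C0 ^ (d : ℝ) * κ ^ (-((d : ℝ) + c))) * δ ^ (-((c - 1) * (d : ℝ))) *
    l ^ (-((d : ℝ) + c)) with hD
  have hD0 : 0 < D := by positivity
  by_cases hAtop : A = ⊤
  · rw [hAtop, ENNReal.top_rpow_of_pos hc0, ENNReal.mul_top (ENNReal.ofReal_pos.2 hD0).ne']
    exact le_top
  -- the net
  obtain ⟨I0, hI0E, hI0sep, hI0cov⟩ := Pool.Agent.W101.HM.exists_net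
    (X := closedBall (0 : Vec d) 1) (Subtype.val ⁻¹' E) (δ := 8 * δ) (by positivity)
  classical
  set I : Finset (Vec d) := I0.image Subtype.val with hI
  have hIE : ∀ v ∈ I, v ∈ E := by
    intro v hv
    obtain ⟨w, hw, rfl⟩ := Finset.mem_image.1 hv
    exact hI0E w hw
  have hIsep : ∀ v ∈ I, ∀ w ∈ I, v ≠ w → 8 * δ ≤ ‖v - w‖ := by
    intro v hv w hw hvw
    obtain ⟨v', hv', rfl⟩ := Finset.mem_image.1 hv
    obtain ⟨w', hw', rfl⟩ := Finset.mem_image.1 hw
    have := hI0sep v' hv' w' hw' (fun h => hvw (by rw [h]))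
    rwa [Subtype.dist_eq, dist_eq_norm] at this
  have hIcov : E ⊆ ⋃ v ∈ I, closedBall v (8 * δ) := by
    intro v hv
    have hv1 : v ∈ closedBall (0 : Vec d) 1 := by simpa using hv.1
    have := hI0cov (show (⟨v, hv1⟩ : closedBall (0 : Vec d) 1) ∈ Subtype.val ⁻¹' E from hv)
    simp only [mem_iUnion] at this ⊢
    obtain ⟨w, hw, hvw⟩ := this
    refine ⟨w, Finset.mem_image_of_mem _ hw, ?_⟩
    rw [mem_closedBall] at hvw ⊢
    rwa [Subtype.dist_eq] at hvw
  have hmeas : volume E ≤ ENNReal.ofReal ((I.card : ℝ) * (C1 * δ ^ d)) := by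
    refine (measure_mono hIcov).trans ((measure_biUnion_finset_le I _).trans ?_)
    refine (Finset.sum_le_sum fun e _ => hcap e δ hδ).trans ?_
    rw [Finset.sum_const, nsmul_eq_mul, ENNReal.ofReal_mul (Nat.cast_nonneg _),
      ENNReal.ofReal_natCast]
  refine hmeas.trans ?_
  rcases I.eq_empty_or_nonempty with hI | hI
  · rw [hI]
    simp
  have hM : 0 < I.card := hI.card_pos
  -- the tubes
  have hun : ∀ v : Vec d, ‖iso d (dir v)‖ = 1 := by
    intro v
    rw [LinearIsometryEquiv.norm_map, norm_dir]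
  have hch : ∀ v : {x // x ∈ I}, ∃ a : EuclideanSpace ℝ (Fin (d + 1)),
      ENNReal.ofReal (l * (κ * δ ^ d)) ≤
        ∫⁻ y in Pool.Agent.W46.KK.tube δ a (iso d (dir (v : Vec d))), f y := by
    intro v
    have h1 : ENNReal.ofReal l < kmax δ f (iso d (dir (v : Vec d))) := (hIE v v.2).2
    rw [kmax, lt_iSup_iff] at h1
    obtain ⟨a, ha⟩ := h1
    refine ⟨a, ?_⟩
    obtain ⟨hv1, hv2⟩ := hvol a _ δ (hun v) hδ hδ1.le
    have hv0 : volume (Pool.Agent.W46.KK.tube δ a (iso d (dir (v : Vec d)))) ≠ 0 := by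
      have : 0 < ENNReal.ofReal (κ * δ ^ d) := ENNReal.ofReal_pos.2 (by positivity)
      exact (this.trans_le hv1).ne'
    rw [ENNReal.ofReal_mul hl.le]
    calc ENNReal.ofReal l * ENNReal.ofReal (κ * δ ^ d)
        ≤ ENNReal.ofReal l * volume (Pool.Agent.W46.KK.tube δ a (iso d (dir (v : Vec d)))) := by
          gcongr
      _ ≤ ((volume (Pool.Agent.W46.KK.tube δ a (iso d (dir (v : Vec d)))))⁻¹ *
            ∫⁻ y in Pool.Agent.W46.KK.tube δ a (iso d (dir (v : Vec d))), f y) *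
            volume (Pool.Agent.W46.KK.tube δ a (iso d (dir (v : Vec d)))) := by
          gcongr
      _ = _ := by
          rw [mul_right_comm, ENNReal.inv_mul_cancel hv0 hv2, one_mul]
  choose a ha using hch
  set g : EuclideanSpace ℝ (Fin (d + 1)) → ℝ≥0∞ := fun x => ∑ i : {x // x ∈ I},
    (Pool.Agent.W46.KK.tube δ (a i) (iso d (dir (i : Vec d)))).indicator (fun _ => (1 : ℝ≥0∞)) x
    with hg
  have hTm : ∀ i : {x // x ∈ I},
      MeasurableSet (Pool.Agent.W46.KK.tube δ (a i) (iso d (dir (i : Vec d)))) :=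
    fun i => (Pool.Agent.W46.KK.tube_isClosed _ _ _).measurableSet
  have hgm : Measurable g :=
    Finset.measurable_sum _ fun i _ => measurable_const.indicator (hTm i)
  have hT' := hT δ hδ hδ1 {x // x ∈ I} a
    (fun i => iso d (dir (i : Vec d)))
    (fun i => hun i)
    (fun i j hij => by
      have h1 := hIsep i i.2 j j.2 (fun hh => hij (Subtype.ext hh))
      have h2 := dir_sep (i : Vec d) (j : Vec d) (by linarith [(hIE i i.2).1])
        (by linarith [(hIE j j.2).1])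
      show δ ≤ ‖iso d (dir (i : Vec d)) - iso d (dir (j : Vec d))‖
      rw [← map_sub, LinearIsometryEquiv.norm_map]
      linarith)
  rw [Fintype.card_coe] at hT'
  have hsum : ∑ i : {x // x ∈ I}, ∫⁻ y in Pool.Agent.W46.KK.tube δ (a i) (iso d (dir (i : Vec d))), f y =
      ∫⁻ y, (f * g) y := by
    have e1 : ∀ y, (f * g) y = ∑ i : {x // x ∈ I},
        (Pool.Agent.W46.KK.tube δ (a i) (iso d (dir (i : Vec d)))).indicator f y := by
      intro y
      rw [Pi.mul_apply, hg, Finset.mul_sum]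
      refine Finset.sum_congr rfl fun i _ => ?_
      by_cases hy : y ∈ Pool.Agent.W46.KK.tube δ (a i) (iso d (dir (i : Vec d)))
      · simp [hy]
      · simp [hy]
    simp_rw [e1]
    rw [lintegral_finsetSum' _ fun i _ => hf.indicator (hTm i)]
    exact Finset.sum_congr rfl fun i _ => (lintegral_indicator (hTm i) _).symm
  have hlow : ENNReal.ofReal ((I.card : ℝ) * (l * (κ * δ ^ d))) ≤ ∫⁻ y, (f * g) y := by
    rw [← hsum, ENNReal.ofReal_mul (Nat.cast_nonneg _), ENNReal.ofReal_natCast]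
    have : ∑ i : {x // x ∈ I}, ENNReal.ofReal (l * (κ * δ ^ d)) =
        (I.card : ℝ≥0∞) * ENNReal.ofReal (l * (κ * δ ^ d)) := by
      rw [Finset.sum_const, nsmul_eq_mul, Finset.card_univ, Fintype.card_coe]
    rw [← this]
    exact Finset.sum_le_sum fun i _ => ha i
  have hHol := ENNReal.lintegral_mul_le_Lp_mul_Lq volume hpq hf hgm.aemeasurable
  obtain ⟨a', ha'0, hAa⟩ : ∃ a' : ℝ, 0 ≤ a' ∧ A = ENNReal.ofReal a' :=
    ⟨A.toReal, ENNReal.toReal_nonneg, (ENNReal.ofReal_toReal hAtop).symm⟩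
  have hreal : (I.card : ℝ) * (l * (κ * δ ^ d)) ≤
      a' ^ (1 / p) * (C0 * δ ^ (d : ℝ) * (I.card : ℝ) ^ (q - 1 / (d : ℝ))) ^ (1 / q) := by
    have hB : 0 ≤ C0 * δ ^ (d : ℝ) * (I.card : ℝ) ^ (q - 1 / (d : ℝ)) := by positivity
    have h1 : ENNReal.ofReal ((I.card : ℝ) * (l * (κ * δ ^ d))) ≤
        ENNReal.ofReal (a' ^ (1 / p) *
          (C0 * δ ^ (d : ℝ) * (I.card : ℝ) ^ (q - 1 / (d : ℝ))) ^ (1 / q)) := by
      rw [ENNReal.ofReal_mul (p := a' ^ (1 / p)) (by positivity),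
        ← ENNReal.ofReal_rpow_of_nonneg ha'0 (by positivity),
        ← ENNReal.ofReal_rpow_of_nonneg hB (by positivity), ← hAa]
      refine (hlow.trans hHol).trans ?_
      gcongr
    exact (ENNReal.ofReal_le_ofReal_iff (by positivity)).1 h1
  have hfin := Pool.Agent.W101.HM.real_alg hd0 hM hc0 hC0 hκ hl hδ ha'0 hp hq hreal
  rw [hAa, ENNReal.ofReal_rpow_of_nonneg ha'0 hc0.le, ← ENNReal.ofReal_mul hD0.le]
  refine ENNReal.ofReal_le_ofReal ?_
  have h5 : (I.card : ℝ) * (C1 * δ ^ d) ≤ (C0 ^ (d : ℝ) * κ ^ (-((d : ℝ) + c)) * a' ^ c *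
      l ^ (-((d : ℝ) + c)) * δ ^ (-((d : ℝ) * c))) * (C1 * δ ^ d) := by
    gcongr
  refine h5.trans_eq ?_
  have e5 : δ ^ (-((c - 1) * (d : ℝ))) = δ ^ (-((d : ℝ) * c)) * δ ^ d := by
    rw [← Real.rpow_natCast δ d, ← Real.rpow_add hδ]
    congr 1
    ring
  rw [hD, e5]
  ring

theorem pow_le_layers {s t : ℝ} (hs : 0 < s) (ht : 0 < t) (x : ℝ≥0∞) :
    x ^ s ≤ ENNReal.ofReal (t ^ s) + ∑' k : ℕ, ENNReal.ofReal ((2 ^ (k + 1) * t) ^ s) *
      ({y : ℝ≥0∞ | ENNReal.ofReal (2 ^ k * t) < y}.indicator (fun _ => 1) x) := by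
  by_cases hx : x ≤ ENNReal.ofReal t
  · calc x ^ s ≤ ENNReal.ofReal t ^ s := ENNReal.rpow_le_rpow hx hs.le
      _ = ENNReal.ofReal (t ^ s) := ENNReal.ofReal_rpow_of_pos ht
      _ ≤ _ := le_self_add
  push Not at hx
  refine le_add_left ?_
  by_cases hxt : x = ∞
  · have h1 : ∑' _ : ℕ, ENNReal.ofReal (t ^ s) = ∞ :=
      ENNReal.tsum_const_eq_top_of_ne_zero (by simpa using Real.rpow_pos_of_pos ht s)
    have h2 : ∑' _ : ℕ, ENNReal.ofReal (t ^ s) ≤ ∑' k : ℕ, ENNReal.ofReal ((2 ^ (k + 1) * t) ^ s) *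
      ({y : ℝ≥0∞ | ENNReal.ofReal (2 ^ k * t) < y}.indicator (fun _ => 1) x) := by
      apply ENNReal.tsum_le_tsum
      intro k
      have hm : x ∈ {y : ℝ≥0∞ | ENNReal.ofReal (2 ^ k * t) < y} := by
        rw [hxt]; exact ENNReal.ofReal_lt_top
      rw [indicator_of_mem hm, mul_one]
      apply ENNReal.ofReal_le_ofReal
      apply Real.rpow_le_rpow ht.le _ hs.le
      have : (1 : ℝ) ≤ 2 ^ (k + 1) := one_le_pow₀ (by norm_num)
      nlinarith
    rw [h1] at h2
    rw [top_le_iff.1 h2]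
    exact le_top
  · -- finite
    have hex : ∃ n : ℕ, x ≤ ENNReal.ofReal (2 ^ n * t) := by
      obtain ⟨n, hn⟩ := pow_unbounded_of_one_lt (x.toReal / t) (one_lt_two (α := ℝ))
      refine ⟨n, ?_⟩
      rw [← ENNReal.ofReal_toReal hxt]
      apply ENNReal.ofReal_le_ofReal
      rw [div_lt_iff₀ ht] at hn
      exact hn.le
    classical
    have hn := Nat.find_spec hex
    have hmin : ∀ m < Nat.find hex, ¬ x ≤ ENNReal.ofReal (2 ^ m * t) := fun m => Nat.find_min hex
    set n := Nat.find hex with hnd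
    rcases Nat.eq_zero_or_pos n with h0 | h0
    · rw [h0, pow_zero, one_mul] at hn
      exact absurd hn (not_le.2 hx)
    · have h1 := hmin (n - 1) (by omega)
      push Not at h1
      refine le_trans ?_ (ENNReal.le_tsum (n - 1))
      rw [indicator_of_mem (by exact h1), mul_one]
      have e : n - 1 + 1 = n := by omega
      rw [e, ← ENNReal.ofReal_rpow_of_pos (by positivity)]
      exact ENNReal.rpow_le_rpow hn hs.le

theorem sum_layers {s Q t : ℝ} (hsQ : s < Q) (ht : 0 < t) :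
    ∑' k : ℕ, ENNReal.ofReal ((2 ^ (k + 1) * t) ^ s) * ENNReal.ofReal ((2 ^ k * t) ^ (-Q)) =
      ENNReal.ofReal (2 ^ s * t ^ (s - Q) / (1 - 2 ^ (s - Q))) := by
  have hr0 : (0 : ℝ) < 2 ^ (s - Q) := by positivity
  have hr1 : (2 : ℝ) ^ (s - Q) < 1 := Real.rpow_lt_one_of_one_lt_of_neg (by norm_num) (by linarith)
  have e1 : ∀ k : ℕ, ENNReal.ofReal ((2 ^ (k + 1) * t) ^ s) * ENNReal.ofReal ((2 ^ k * t) ^ (-Q)) =
      ENNReal.ofReal (2 ^ s * t ^ (s - Q)) * ENNReal.ofReal (2 ^ (s - Q)) ^ k := by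
    intro k
    rw [← ENNReal.ofReal_pow hr0.le, ← ENNReal.ofReal_mul (by positivity),
      ← ENNReal.ofReal_mul (by positivity)]
    congr 1
    rw [Real.mul_rpow (by positivity) ht.le, Real.mul_rpow (by positivity) ht.le, pow_succ,
      Real.mul_rpow (by positivity) (by norm_num), sub_eq_add_neg, Real.rpow_add ht,
      Real.rpow_add (by norm_num), mul_pow]
    rw [← Real.rpow_natCast, ← Real.rpow_natCast, ← Real.rpow_natCast, ← Real.rpow_mul (by norm_num),
      ← Real.rpow_mul (by norm_num), ← Real.rpow_mul (by norm_num), ← Real.rpow_mul (by norm_num)]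
    rw [mul_comm s (k : ℝ), mul_comm (-Q) (k : ℝ)]
    ring
  simp only [e1]
  rw [ENNReal.tsum_mul_left, ENNReal.tsum_geometric, div_eq_mul_inv,
    ENNReal.ofReal_mul (p := 2 ^ s * t ^ (s - Q)) (by positivity),
    ENNReal.ofReal_inv_of_pos (by linarith), ENNReal.ofReal_sub _ hr0.le, ENNReal.ofReal_one]

/-- From a weak type bound on a finite measure space to a strong type bound at a smaller
exponent. -/
theorem strong_of_weak {α : Type*} [MeasurableSpace α] (μ : Measure α) {s Q : ℝ} (hs : 0 < s)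
    (hsQ : s < Q) {V A : ℝ≥0∞} (hV : μ univ ≤ V) {G : α → ℝ≥0∞}
    (h : ∀ l : ℝ, 0 < l → μ {x | ENNReal.ofReal l < G x} ≤ ENNReal.ofReal (l ^ (-Q)) * A)
    {t : ℝ} (ht : 0 < t) :
    ∫⁻ x, G x ^ s ∂μ ≤ ENNReal.ofReal (t ^ s) * V +
      ENNReal.ofReal (2 ^ s * t ^ (s - Q) / (1 - 2 ^ (s - Q))) * A := by
  obtain ⟨g, hg, hgG, heq⟩ := exists_measurable_le_lintegral_eq μ (fun x => G x ^ s)
  rw [heq]
  set H : α → ℝ≥0∞ := fun x => g x ^ (1 / s) with hH
  have hHm : Measurable H := hg.pow_const _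
  have hHG : ∀ x, H x ≤ G x := by
    intro x
    calc g x ^ (1 / s) ≤ (G x ^ s) ^ (1 / s) := ENNReal.rpow_le_rpow (hgG x) (by positivity)
      _ = G x := by rw [← ENNReal.rpow_mul, mul_one_div_cancel hs.ne', ENNReal.rpow_one]
  have hHs : ∀ x, g x = H x ^ s := by
    intro x
    rw [hH]
    simp only
    rw [← ENNReal.rpow_mul, one_div_mul_cancel hs.ne', ENNReal.rpow_one]
  have hms : ∀ k : ℕ, MeasurableSet {x | ENNReal.ofReal (2 ^ k * t) < H x} := fun k =>
    measurableSet_lt measurable_const hHm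
  have hind : ∀ (k : ℕ) (x : α), {y : ℝ≥0∞ | ENNReal.ofReal (2 ^ k * t) < y}.indicator
      (fun _ => (1 : ℝ≥0∞)) (H x) =
      {x | ENNReal.ofReal (2 ^ k * t) < H x}.indicator (fun _ => 1) x := by
    intro k x
    by_cases hx : ENNReal.ofReal (2 ^ k * t) < H x
    · rw [indicator_of_mem (by exact hx), indicator_of_mem (by exact hx)]
    · rw [indicator_of_notMem (by exact hx), indicator_of_notMem (by exact hx)]
  calc ∫⁻ x, g x ∂μ
      ≤ ∫⁻ x, (ENNReal.ofReal (t ^ s) + ∑' k : ℕ, ENNReal.ofReal ((2 ^ (k + 1) * t) ^ s) *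
          {x | ENNReal.ofReal (2 ^ k * t) < H x}.indicator (fun _ => 1) x) ∂μ := by
        apply lintegral_mono
        intro x
        show g x ≤ _
        rw [hHs]
        refine (pow_le_layers hs ht (H x)).trans (le_of_eq ?_)
        simp only [hind]
    _ = ENNReal.ofReal (t ^ s) * μ univ + ∑' k : ℕ, ENNReal.ofReal ((2 ^ (k + 1) * t) ^ s) *
          μ {x | ENNReal.ofReal (2 ^ k * t) < H x} := by
        rw [lintegral_add_left measurable_const, lintegral_const, lintegral_tsum]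
        · congr 1
          apply tsum_congr
          intro k
          rw [lintegral_const_mul _ (measurable_const.indicator (hms k)),
            lintegral_indicator (hms k), setLIntegral_one]
        · intro k
          exact (measurable_const.mul (measurable_const.indicator (hms k))).aemeasurable
    _ ≤ ENNReal.ofReal (t ^ s) * V + ∑' k : ℕ, ENNReal.ofReal ((2 ^ (k + 1) * t) ^ s) *
          (ENNReal.ofReal ((2 ^ k * t) ^ (-Q)) * A) := by
        gcongr with k
        refine (measure_mono ?_).trans (h (2 ^ k * t) (by positivity))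
        intro x hx
        exact lt_of_lt_of_le hx (hHG x)
    _ = _ := by
        congr 1
        rw [← sum_layers hsQ ht, ← ENNReal.tsum_mul_right]
        apply tsum_congr
        intro k
        ring

/-- The optimised form. -/
theorem strong_of_weak' {α : Type*} [MeasurableSpace α] (μ : Measure α) {s Q : ℝ} (hs : 0 < s)
    (hsQ : s < Q) {V A : ℝ≥0∞} (hV : μ univ ≤ V) (hV0 : V ≠ 0) (hVt : V ≠ ∞) {G : α → ℝ≥0∞}
    (h : ∀ l : ℝ, 0 < l → μ {x | ENNReal.ofReal l < G x} ≤ ENNReal.ofReal (l ^ (-Q)) * A) :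
    ∫⁻ x, G x ^ s ∂μ ≤ ENNReal.ofReal (1 + 2 ^ s / (1 - 2 ^ (s - Q))) *
      (V ^ (1 - s / Q) * A ^ (s / Q)) := by
  have hQ0 : 0 < Q := by linarith
  have hr0 : (0 : ℝ) < 2 ^ (s - Q) := by positivity
  have hr1 : (2 : ℝ) ^ (s - Q) < 1 := Real.rpow_lt_one_of_one_lt_of_neg (by norm_num) (by linarith)
  have hK0 : (0 : ℝ) < 1 + 2 ^ s / (1 - 2 ^ (s - Q)) := by
    have : (0 : ℝ) < 2 ^ s / (1 - 2 ^ (s - Q)) := div_pos (by positivity) (by linarith)
    linarith
  have hsq0 : 0 < s / Q := by positivity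
  have hsq1 : 0 < 1 - s / Q := by
    rw [sub_pos, div_lt_one hQ0]; exact hsQ
  by_cases hAt : A = ∞
  · rw [hAt, ENNReal.top_rpow_of_pos hsq0, ENNReal.mul_top, ENNReal.mul_top]
    · exact le_top
    · exact (ENNReal.ofReal_pos.2 hK0).ne'
    · intro h0
      rcases ENNReal.rpow_eq_zero_iff.1 h0 with h | h
      · exact hV0 h.1
      · exact hVt h.1
  -- real forms
  set v : ℝ := V.toReal with hv
  have hv0 : 0 < v := ENNReal.toReal_pos hV0 hVt
  have hVv : V = ENNReal.ofReal v := (ENNReal.ofReal_toReal hVt).symm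
  set a : ℝ := A.toReal with ha
  have ha0 : 0 ≤ a := ENNReal.toReal_nonneg
  have hAa : A = ENNReal.ofReal a := (ENNReal.ofReal_toReal hAt).symm
  rcases eq_or_lt_of_le ha0 with h0 | h0
  · -- `A = 0`
    have hA0 : A = 0 := by rw [hAa, ← h0]; simp
    rw [hA0, ENNReal.zero_rpow_of_pos hsq0, mul_zero, mul_zero]
    apply ENNReal.le_of_forall_pos_le_add
    intro ε hε _
    have he0 : (0 : ℝ) < ε := hε
    have h1 := strong_of_weak μ hs hsQ hV h (t := ((ε : ℝ) / v) ^ (1 / s)) (by positivity)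
    rw [hA0, mul_zero, add_zero] at h1
    refine h1.trans ?_
    rw [zero_add, ← Real.rpow_mul (by positivity), one_div_mul_cancel hs.ne', Real.rpow_one, hVv,
      ← ENNReal.ofReal_mul (by positivity), div_mul_cancel₀ _ hv0.ne', ENNReal.ofReal_coe_nnreal]
  · set t : ℝ := (a / v) ^ (1 / Q) with ht
    have ht0 : 0 < t := by positivity
    refine (strong_of_weak μ hs hsQ hV h ht0).trans (le_of_eq ?_)
    rw [hVv, hAa, ENNReal.ofReal_rpow_of_pos hv0, ENNReal.ofReal_rpow_of_pos h0,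
      ← ENNReal.ofReal_mul (by positivity), ← ENNReal.ofReal_mul (by
        apply div_nonneg (by positivity); linarith),
      ← ENNReal.ofReal_add (by positivity) (by
        apply mul_nonneg _ h0.le
        apply div_nonneg (by positivity); linarith),
      ← ENNReal.ofReal_mul (by positivity), ← ENNReal.ofReal_mul hK0.le]
    congr 1
    have e1 : t ^ s * v = v ^ (1 - s / Q) * a ^ (s / Q) := by
      rw [ht, ← Real.rpow_mul (by positivity), Real.div_rpow h0.le hv0.le, Real.rpow_sub hv0,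
        Real.rpow_one]
      have : 1 / Q * s = s / Q := by ring
      rw [this]
      field_simp
    have e2 : t ^ (s - Q) * a = v ^ (1 - s / Q) * a ^ (s / Q) := by
      have h3 : t ^ (s - Q) = t ^ s * (t ^ Q)⁻¹ := by
        rw [Real.rpow_sub ht0, div_eq_mul_inv]
      have h4 : t ^ Q = a / v := by
        rw [ht, ← Real.rpow_mul (by positivity), one_div_mul_cancel hQ0.ne', Real.rpow_one]
      rw [h3, h4, ← e1]
      field_simp
    have e3 : 2 ^ s * t ^ (s - Q) / (1 - 2 ^ (s - Q)) * a =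
        2 ^ s / (1 - 2 ^ (s - Q)) * (t ^ (s - Q) * a) := by ring
    rw [e3, e1, e2]
    ring

end Pool.Agent.N249.Tw
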